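import Mathlib

set_option autoImplicit false

namespace Pool.Agent.Results.MP_d05de0_co.Counter

open MvPolynomial

variable {p n : ℕ}

def IsProd (Q : MvPolynomial (Fin n) (ZMod p)) : Prop :=
  ∃ l : List (MvPolynomial (Fin n) (ZMod p)), (∀ L ∈ l, L.totalDegree ≤ 1) ∧ Q = l.prod

/-- The degree-1 rank of `P` is at most `k`. -/
def RkLe (P : MvPolynomial (Fin n) (ZMod p)) (k : ℕ) : Prop :=
  ∃ j ≤ k, ∃ Q : Fin j → MvPolynomial (Fin n) (ZMod p),
    (∀ i, IsProd (Q i) ∧ (Q i).totalDegree ≤ P.totalDegree) ∧ P = ∑ i, Q i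

/-- The degree-1 rank of `P` relative to `S` is at most `k`. -/
def RkSLe (S : Set (ZMod p)) (P : MvPolynomial (Fin n) (ZMod p)) (k : ℕ) : Prop :=
  ∃ P0 : MvPolynomial (Fin n) (ZMod p), P0.totalDegree ≤ P.totalDegree ∧
    (∀ x : Fin n → ZMod p, (∀ i, x i ∈ S) → eval x P0 = 0) ∧ RkLe (P - P0) k

abbrev R : Type := MvPolynomial (Fin 3) (ZMod 3)

instance : Fact (Nat.Prime 3) := ⟨by norm_num⟩

def Aff (L : R) : Prop := ∃ a b c d : ZMod 3, ∀ x, eval x L = a * x 0 + b * x 1 + c * x 2 + d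

lemma aff (L : R) (h : L.totalDegree ≤ 1) : Aff L := by
  have hm : ∀ s ∈ L.support, Aff (monomial s (coeff s L)) := by
    intro s hs
    have h1 := (le_totalDegree hs).trans h
    rw [Finsupp.sum_fintype _ _ (fun _ => rfl), Fin.sum_univ_three] at h1
    have e : ∀ x : Fin 3 → ZMod 3, eval x (monomial s (coeff s L)) =
        coeff s L * (x 0 ^ s 0 * x 1 ^ s 1 * x 2 ^ s 2) := fun x => by
      rw [eval_monomial, Finsupp.prod_fintype _ _ (fun _ => pow_zero _), Fin.prod_univ_three]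
    have : (s 0 = 0 ∧ s 1 = 0 ∧ s 2 = 0) ∨ (s 0 = 1 ∧ s 1 = 0 ∧ s 2 = 0) ∨
        (s 0 = 0 ∧ s 1 = 1 ∧ s 2 = 0) ∨ (s 0 = 0 ∧ s 1 = 0 ∧ s 2 = 1) := by omega
    rcases this with ⟨a, b, c⟩ | ⟨a, b, c⟩ | ⟨a, b, c⟩ | ⟨a, b, c⟩
    · exact ⟨0, 0, 0, coeff s L, fun x => by rw [e, a, b, c]; ring⟩
    · exact ⟨coeff s L, 0, 0, 0, fun x => by rw [e, a, b, c]; ring⟩
    · exact ⟨0, coeff s L, 0, 0, fun x => by rw [e, a, b, c]; ring⟩
    · exact ⟨0, 0, coeff s L, 0, fun x => by rw [e, a, b, c]; ring⟩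
  rw [L.as_sum]
  refine Finset.sum_induction _ Aff ?_ ⟨0, 0, 0, 0, fun x => by simp⟩ hm
  rintro A B ⟨a, b, c, d, h⟩ ⟨a', b', c', d', h'⟩
  exact ⟨a + a', b + b', c + c', d + d', fun x => by rw [map_add, h, h']; ring⟩

lemma split (l : List R) (hl : ∀ L ∈ l, L.totalDegree ≤ 1) :
    (l.prod.totalDegree ≤ 2 → ∃ A B : R, A.totalDegree ≤ 1 ∧ B.totalDegree ≤ 1 ∧ l.prod = A * B) := by
  induction l with
  | nil => exact fun _ => ⟨1, 1, by simp, by simp, by simp⟩
  | cons L l ih =>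
    intro h
    rw [List.prod_cons] at h ⊢
    by_cases h0 : L = 0 ∨ l.prod = 0
    · refine ⟨0, 0, by simp, by simp, ?_⟩
      rcases h0 with h0 | h0 <;> simp [h0]
    · push Not at h0
      rw [totalDegree_mul_of_isDomain h0.1 h0.2] at h
      have hL := hl L (by simp)
      by_cases h1 : L.totalDegree = 0
      · obtain ⟨A, B, a, b, e⟩ := ih (fun M hM => hl M (by simp [hM])) (by omega)
        exact ⟨L * A, B, (totalDegree_mul _ _).trans (by omega), b, by rw [e, mul_assoc]⟩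
      · exact ⟨L, l.prod, hL, by omega, rfl⟩

noncomputable def P : R := X 0 * X 1 + X 2 - X 0 * X 2

lemma degP : P.totalDegree = 2 := by
  apply le_antisymm
  · have m : ∀ i j : Fin 3, (X i * X j : R).totalDegree ≤ 2 := fun i j =>
      (totalDegree_mul _ _).trans (by simp [totalDegree_X])
    refine (totalDegree_sub _ _).trans (max_le ((totalDegree_add _ _).trans (max_le (m _ _) ?_)) (m _ _))
    simp [totalDegree_X]
  · by_contra h
    obtain ⟨a, b, c, d, e⟩ := aff P (by omega)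
    have e1 := e ![0, 0, 0]
    have e2 := e ![1, 0, 0]
    have e3 := e ![0, 1, 0]
    have e4 := e ![1, 1, 0]
    simp [P] at e1 e2 e3 e4
    have : (1 : ZMod 3) = 0 := by linear_combination e4 - e2 - e3 + e1
    exact absurd this (by decide)

lemma key : ∀ a b c d a' b' c' d' t : ZMod 3, ¬ (d * d' = 0 - t ∧ (a + d) * (a' + d') = 0 - t ∧
    (b + d) * (b' + d') = 0 - t ∧ (c + d) * (c' + d') = 1 - t ∧
    (a + b + d) * (a' + b' + d') = 1 - t ∧ (a + c + d) * (a' + c' + d') = 0 - t ∧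
    (b + c + d) * (b' + c' + d') = 1 - t ∧ (a + b + c + d) * (a' + b' + c' + d') = 1 - t) := by
  decide +kernel

theorem result : ∃ (p n : ℕ) (S : Set (ZMod p)) (P : MvPolynomial (Fin n) (ZMod p)),
    p.Prime ∧ 3 ≤ p ∧ S.Nonempty ∧ P.totalDegree = 2 ∧
    (∃ v, ∀ x : Fin n → ZMod p, (∀ i, x i ∈ S) → eval x P ≠ v) ∧
    ∀ c, ¬ RkSLe S (P - C c) (p - 2) := by
  refine ⟨3, 3, {0, 1}, P, by norm_num, le_rfl, ⟨0, by simp⟩, degP, ⟨2, fun x hx => ?_⟩, ?_⟩
  · have h0 := hx 0; have h1 := hx 1; have h2 := hx 2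
    simp only [Set.mem_insert_iff, Set.mem_singleton_iff] at h0 h1 h2
    simp only [P, map_sub, map_add, map_mul, eval_X]
    rcases h0 with h0 | h0 <;> rcases h1 with h1 | h1 <;> rcases h2 with h2 | h2 <;>
      rw [h0, h1, h2] <;> decide
  · rintro t ⟨P0, d0, v0, j, hj, Q, hQ, e⟩
    have d1 : (P - C t).totalDegree ≤ 2 :=
      (totalDegree_sub _ _).trans (max_le degP.le (by simp))
    have d2 : (P - C t - P0).totalDegree ≤ 2 :=
      (totalDegree_sub _ _).trans (max_le d1 (d0.trans d1))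
    obtain ⟨A, B, hA, hB, hAB⟩ : ∃ A B : R, A.totalDegree ≤ 1 ∧ B.totalDegree ≤ 1 ∧
        P - C t - P0 = A * B := by
      have : j = 0 ∨ j = 1 := by omega
      rcases this with rfl | rfl
      · exact ⟨0, 0, by simp, by simp, by simpa using e⟩
      · obtain ⟨⟨l, hl, el⟩, dq⟩ := hQ 0
        obtain ⟨A, B, a, b, e'⟩ := split l hl (el ▸ dq.trans d2)
        exact ⟨A, B, a, b, by rw [e, Fin.sum_univ_one, el, e']⟩
    obtain ⟨a, b, c, d, ea⟩ := aff A hA
    obtain ⟨a', b', c', d', eb⟩ := aff B hB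
    have k : ∀ x y z : ZMod 3, x ∈ ({0, 1} : Set (ZMod 3)) → y ∈ ({0, 1} : Set (ZMod 3)) →
        z ∈ ({0, 1} : Set (ZMod 3)) →
        (a * x + b * y + c * z + d) * (a' * x + b' * y + c' * z + d') = x * y + z - x * z - t := by
      intro x y z hx hy hz
      have h := congrArg (eval ![x, y, z]) hAB
      rw [map_sub, v0 _ (fun i => by fin_cases i <;> assumption), map_mul, ea, eb] at h
      simpa [P] using h.symm
    have z0 : (0 : ZMod 3) ∈ ({0, 1} : Set (ZMod 3)) := by simp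
    have z1 : (1 : ZMod 3) ∈ ({0, 1} : Set (ZMod 3)) := by simp
    refine key a b c d a' b' c' d' t ⟨?_, ?_, ?_, ?_, ?_, ?_, ?_, ?_⟩
    · linear_combination k 0 0 0 z0 z0 z0
    · linear_combination k 1 0 0 z1 z0 z0
    · linear_combination k 0 1 0 z0 z1 z0
    · linear_combination k 0 0 1 z0 z0 z1
    · linear_combination k 1 1 0 z1 z1 z0
    · linear_combination k 1 0 1 z1 z0 z1
    · linear_combination k 0 1 1 z0 z1 z1
    · linear_combination k 1 1 1 z1 z1 z1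

end Pool.Agent.Results.MP_d05de0_co.Counter
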